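import Pool.Agent.LibTGraph.Closure

namespace Pool.Agent.Results.MP_35cd17_co.TGraphsOptimal

open Finset Filter Topology Pool.Agent.LibTGraph

/-- the point `p(G,H) = (2e/n^2, hom(G,H)/n^v)` of a graph `H` with `n` vertices and `e` edges -/
noncomputable def point {v n : ℕ} (G : SimpleGraph (Fin v)) (H : SimpleGraph (Fin n)) : ℝ × ℝ :=
  (2 * (H.edgeSet.ncard : ℝ) / (n : ℝ) ^ 2, (Nat.card (G →g H) : ℝ) / (n : ℝ) ^ v)

/-- the profile of `G`: the closure of the set of all points `p(G,H)` -/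
def profile {v : ℕ} (G : SimpleGraph (Fin v)) : Set (ℝ × ℝ) :=
  closure {p | ∃ n : ℕ, 0 < n ∧ ∃ H : SimpleGraph (Fin n), p = point G H}

/-- the upper boundary `f(G,β)` of the profile -/
noncomputable def f {v : ℕ} (G : SimpleGraph (Fin v)) (β : ℝ) : ℝ :=
  sSup {y | (β, y) ∈ profile G}

/-- adjacency of the classes of a T-graph; class `0` is `Y`, class `1` is `R`, class `2` is `B`:
`R` is joined to everything (itself included), `Y` is a clique, and there is nothing else -/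
def joined (i j : Fin 3) : Prop := i = 1 ∨ j = 1 ∨ (i = 0 ∧ j = 0)

/-- the relative sizes `y(q), r(q), b(q)` of the classes `Y, R, B` -/
noncomputable def size (β q : ℝ) : Fin 3 → ℝ :=
  ![√β * q, 1 - √(1 - β * (1 - q ^ 2)), √(1 - β * (1 - q ^ 2)) - √β * q]

open scoped Classical in
/-- the limit homomorphism density `t(G, T^e_n(q))` -/
noncomputable def tT {v : ℕ} (G : SimpleGraph (Fin v)) (β q : ℝ) : ℝ :=
  ∑ c : Fin v → Fin 3, if ∀ x y, G.Adj x y → joined (c x) (c y) then ∏ x, size β q (c x) else 0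

/-- `f_T(G,β)`, the supremum of `t(G, T^e_n(q))` over `q` in `[0,1]` -/
noncomputable def fT {v : ℕ} (G : SimpleGraph (Fin v)) (β : ℝ) : ℝ :=
  sSup (tT G β '' Set.Icc 0 1)

section

variable {v : ℕ} (G : SimpleGraph (Fin v))

lemma tT_eq (β q : ℝ) : tT G β q = TT G joined (size β q) := by
  unfold tT TT IsHom
  apply sum_congr rfl
  intro c _
  by_cases h : ∀ x y, G.Adj x y → joined (c x) (c y)
  · rw [if_pos h, if_pos h]
  · rw [if_neg h, if_neg h]

lemma point_eq {n : ℕ} (H : SimpleGraph (Fin n)) :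
    point G H = (DD H.Adj (uw n), TT G H.Adj (uw n)) := by
  classical
  unfold point
  congr 1
  · rw [DD_uw]
    congr 1
    have h1 := H.sum_degrees_eq_twice_card_edges
    have h2 : H.edgeSet.ncard = #H.edgeFinset := by
      rw [Set.ncard_eq_toFinset_card', SimpleGraph.edgeFinset]
    rw [h2]
    have h3 : ((∑ x, H.degree x : ℕ) : ℝ) = ((2 * #H.edgeFinset : ℕ) : ℝ) := by rw [h1]
    push_cast at h3
    rw [← h3]
    apply sum_congr rfl
    intro x _
    rw [← SimpleGraph.card_neighborFinset_eq_degree, SimpleGraph.neighborFinset_eq_filter,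
      card_filter]
    push_cast
    rfl
  · rw [TT_uw, Fintype.card_fin]
    congr 2
    unfold homs
    rw [← Fintype.card_subtype, ← Nat.card_eq_fintype_card]
    exact Nat.card_congr
      { toFun := fun φ => ⟨φ, fun x y h => φ.map_rel h⟩
        invFun := fun φ => ⟨φ.1, fun {x y} h => φ.2 x y h⟩
        left_inv := fun φ => rfl
        right_inv := fun φ => rfl }

lemma profile_eq : profile G = closure {p : ℝ × ℝ | ∃ n : ℕ, 0 < n ∧ ∃ H : SimpleGraph (Fin n),
    p = (DD H.Adj (uw n), TT G H.Adj (uw n))} := by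
  unfold profile
  simp only [point_eq]

lemma DD3 (w : Fin 3 → ℝ) : DD (can 3) w = w 0 ^ 2 + 2 * w 0 * (w 1 + w 2) + w 1 ^ 2 := by
  classical
  unfold DD can
  simp [Fin.sum_univ_three]
  ring

lemma TT_swap (y r b : ℝ) : TT G joined ![y, r, b] = TT G (can 3) ![r, y, b] := by
  have h1 : push (Equiv.swap (0 : Fin 3) 1) ![y, r, b] = ![r, y, b] := by
    funext k
    rw [push_apply, Fin.sum_univ_three]
    fin_cases k <;> simp [Equiv.swap_apply_def]
  rw [← h1]
  symm
  apply TT_push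
  intro i j _ _
  unfold joined can
  fin_cases i <;> fin_cases j <;> simp [Equiv.swap_apply_def]

lemma size_simp {β q : ℝ} (hβ : β ∈ Set.Icc (0 : ℝ) 1) (hq : q ∈ Set.Icc (0 : ℝ) 1) :
    Simp (![1 - √(1 - β * (1 - q ^ 2)), √β * q, √(1 - β * (1 - q ^ 2)) - √β * q] : Fin 3 → ℝ) ∧
    DD (can 3) (![1 - √(1 - β * (1 - q ^ 2)), √β * q,
      √(1 - β * (1 - q ^ 2)) - √β * q] : Fin 3 → ℝ) = β := by
  obtain ⟨hβ0, hβ1⟩ := hβ
  obtain ⟨hq0, hq1⟩ := hq
  have hq2 : q ^ 2 ≤ 1 := by nlinarith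
  have h1 : 0 ≤ β * (1 - q ^ 2) := mul_nonneg hβ0 (by linarith)
  have h2 : β * (1 - q ^ 2) ≤ 1 := by nlinarith [sq_nonneg q]
  have h3 : 0 ≤ 1 - β * (1 - q ^ 2) := by linarith
  have h4 : √(1 - β * (1 - q ^ 2)) ≤ 1 := by
    rw [Real.sqrt_le_one]
    linarith
  have h5 : √β * q ≤ √(1 - β * (1 - q ^ 2)) := by
    apply Real.le_sqrt_of_sq_le
    rw [mul_pow, Real.sq_sqrt hβ0]
    linarith
  have h6 : 0 ≤ √β * q := by positivity
  constructor
  · constructor
    · intro k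
      fin_cases k
      · show 0 ≤ 1 - √(1 - β * (1 - q ^ 2))
        linarith
      · exact h6
      · show 0 ≤ √(1 - β * (1 - q ^ 2)) - √β * q
        linarith
    · rw [Fin.sum_univ_three]
      show 1 - √(1 - β * (1 - q ^ 2)) + √β * q + (√(1 - β * (1 - q ^ 2)) - √β * q) = 1
      ring
  · rw [DD3]
    show (1 - √(1 - β * (1 - q ^ 2))) ^ 2 + 2 * (1 - √(1 - β * (1 - q ^ 2))) *
      (√β * q + (√(1 - β * (1 - q ^ 2)) - √β * q)) + (√β * q) ^ 2 = β
    have e1 : √(1 - β * (1 - q ^ 2)) ^ 2 = 1 - β * (1 - q ^ 2) := Real.sq_sqrt h3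
    have e2 : √β ^ 2 = β := Real.sq_sqrt hβ0
    calc _ = 1 - √(1 - β * (1 - q ^ 2)) ^ 2 + √β ^ 2 * q ^ 2 := by ring
      _ = β := by rw [e1, e2]; ring

lemma exists_q (w : Fin 3 → ℝ) (hw : Simp w) :
    ∃ q ∈ Set.Icc (0 : ℝ) 1, TT G (can 3) w = tT G (DD (can 3) w) q := by
  have hsum := hw.sum
  rw [Fin.sum_univ_three] at hsum
  have hw0 := hw.nonneg 0
  have hw1 := hw.nonneg 1
  have hw2 := hw.nonneg 2
  have hD := DD3 w
  set β := DD (can 3) w with hβ
  have hβ0 : 0 ≤ β := by rw [hD]; positivity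
  have hD' : β = 1 - (1 - w 0) ^ 2 + w 1 ^ 2 := by
    rw [hD]
    have : w 1 + w 2 = 1 - w 0 := by linarith
    rw [this]; ring
  have key : ∀ q, √β * q = w 1 → q ∈ Set.Icc (0 : ℝ) 1 →
      ∃ q ∈ Set.Icc (0 : ℝ) 1, TT G (can 3) w = tT G β q := by
    intro q hq hq'
    refine ⟨q, hq', ?_⟩
    have e1 : β * q ^ 2 = w 1 ^ 2 := by
      rw [← hq, mul_pow, Real.sq_sqrt hβ0]
    have e2 : 1 - β * (1 - q ^ 2) = (1 - w 0) ^ 2 := by
      calc 1 - β * (1 - q ^ 2) = 1 - β + β * q ^ 2 := by ring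
        _ = _ := by rw [e1, hD']; ring
    have e3 : √(1 - β * (1 - q ^ 2)) = 1 - w 0 := by
      rw [e2]
      apply Real.sqrt_sq
      linarith
    rw [tT_eq]
    unfold size
    rw [TT_swap, e3, hq]
    congr 1
    funext k
    fin_cases k
    · show w 0 = 1 - (1 - w 0)
      ring
    · rfl
    · show w 2 = 1 - w 0 - w 1
      linarith
  rcases eq_or_lt_of_le hβ0 with h0 | h0
  · have h1 : w 1 = 0 := by
      have : w 1 ^ 2 ≤ 0 := by
        have : 0 ≤ w 0 ^ 2 + 2 * w 0 * (w 1 + w 2) := by positivity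
        linarith
      nlinarith
    exact key 0 (by rw [h1, mul_zero]) ⟨le_rfl, zero_le_one⟩
  · have hs : 0 < √β := Real.sqrt_pos.2 h0
    refine key (w 1 / √β) (by field_simp) ⟨by positivity, ?_⟩
    rw [div_le_one hs]
    apply Real.le_sqrt_of_sq_le
    rw [hD]
    have : 0 ≤ w 0 ^ 2 + 2 * w 0 * (w 1 + w 2) := by positivity
    linarith

lemma tT_mem {β : ℝ} (hβ : β ∈ Set.Icc (0 : ℝ) 1) {q : ℝ} (hq : q ∈ Set.Icc (0 : ℝ) 1) :
    (β, tT G β q) ∈ profile G := by
  obtain ⟨h1, h2⟩ := size_simp hβ hq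
  have h3 := mem_profile G _ h1
  rw [profile_eq, tT_eq]
  unfold size
  rw [TT_swap]
  rw [h2] at h3
  exact h3

lemma le_of_mem {β y : ℝ} (h : (β, y) ∈ profile G) : ∃ q ∈ Set.Icc (0 : ℝ) 1, y ≤ tT G β q := by
  have h1 : profile G ⊆ region G := by
    rw [profile_eq]
    apply closure_minimal _ (region_closed G)
    rintro p ⟨n, hn, H, rfl⟩
    exact mem_region G hn H
  obtain ⟨w, hw, hD, hT⟩ := h1 h
  obtain ⟨q, hq, hq'⟩ := exists_q G w hw
  refine ⟨q, hq, ?_⟩
  simp only at hD hT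
  rw [hD] at hq'
  rw [← hq']
  exact hT

lemma continuous_tT (β : ℝ) : Continuous (tT G β) := by
  have h : tT G β = fun q => TT G joined (size β q) := by
    funext q
    exact tT_eq G β q
  rw [h]
  apply (continuous_TT G joined).comp
  apply continuous_pi
  intro k
  unfold size
  fin_cases k
  · show Continuous fun q : ℝ => √β * q
    fun_prop
  · show Continuous fun q : ℝ => 1 - √(1 - β * (1 - q ^ 2))
    fun_prop
  · show Continuous fun q : ℝ => √(1 - β * (1 - q ^ 2)) - √β * q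
    fun_prop

end

/-- For every graph `G` and every `β` in `[0,1]` the upper boundary of the homomorphism profile
(which is a maximum) equals the supremum over T-graphs, and it is attained by a T-graph -/
theorem result (v : ℕ) (G : SimpleGraph (Fin v)) (β : ℝ) (hβ : β ∈ Set.Icc (0 : ℝ) 1) :
    IsGreatest {y | (β, y) ∈ profile G} (f G β) ∧ f G β = fT G β ∧
      ∃ q ∈ Set.Icc (0 : ℝ) 1, f G β = tT G β q := by
  have hne : (Set.Icc (0 : ℝ) 1).Nonempty := ⟨0, le_rfl, zero_le_one⟩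
  obtain ⟨q0, hq0, hmax⟩ := isCompact_Icc.exists_isMaxOn hne (continuous_tT G β).continuousOn
  have h1 : IsGreatest (tT G β '' Set.Icc 0 1) (tT G β q0) := by
    refine ⟨⟨q0, hq0, rfl⟩, ?_⟩
    rintro _ ⟨q, hq, rfl⟩
    exact hmax hq
  have h2 : IsGreatest {y | (β, y) ∈ profile G} (tT G β q0) := by
    refine ⟨tT_mem G hβ hq0, ?_⟩
    intro y hy
    obtain ⟨q, hq, hle⟩ := le_of_mem G hy
    exact hle.trans (hmax hq)
  have h3 : f G β = tT G β q0 := h2.csSup_eq
  have h4 : fT G β = tT G β q0 := h1.csSup_eq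
  refine ⟨?_, ?_, q0, hq0, h3⟩
  · rw [h3]
    exact h2
  · rw [h3, h4]

end Pool.Agent.Results.MP_35cd17_co.TGraphsOptimal
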